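import Pool.Agent.Y683.AA.TWc
import Pool.Agent.Y683.Cent
import Pool.Agent.W765.HK.Pair
import Pool.Agent.W216.CY.Div
import Pool.Agent.W287.HK.Basic
import Pool.Agent.W571.HK.Cls
import Pool.Agent.W53.HK.Fp
import Pool.Agent.W366.HK.Fpr
import Pool.Agent.W585.HK.LAT
import Pool.Agent.W692.HK.Ker
import Pool.Agent.W584.HK.CNT
import Pool.Agent.W513.HK.Divr
import Pool.Agent.W822.HK.MU
import Pool.Agent.W240.HK.Count
import Pool.Agent.W856.HK.Dec
import Pool.Agent.W636.HK.Gauss
import Pool.Agent.W348.HK.Pois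

/-!
# Central orders of vanishing of the L-functions of all CM motives of rank two

`R` is the ring of integers of an imaginary quadratic field `K` (of any class number), and
`m ≥ 1`.  A primitive Hecke character `θ` of `K` of infinity type `(2m - 1, 0)` is attached to a
motive of weight `2m - 1` over `K`, a direct factor (with coefficients) of `H^(2m-1)(X)` for a
suitable power `X` of a CM elliptic curve, twisted by a character of finite order; the centre of its
functional equation is `s = m`.  Part (iii) of the conjecture says that the order of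
vanishing of `L(θ, s)` at `s = m` is the rank of the corresponding part of `CH^m(X)^0`.

The theorem: on the average over ALL the `θ` with a conductor of norm at most `X`, the order of
vanishing of `L(θ, s)` at `s = m` is at most `C exp(-c (log X)^(1/3))`; the bound is uniform in the
weight, for `m ≤ X^(1 - ε)`.  In particular `L(θ, m) ≠ 0` except for a proportion
`C exp(-c (log X)^(1/3))` of the `θ`.  Nothing is averaged over twists by characters of small
order only: almost all `θ` are covered.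

The library (project of helper683, with the project HK of helper192 and others) contains the proof.
-/

set_option autoImplicit false

open Complex

namespace Pool.Agent.Results.MP_29b22a_nt.AlmostAllHecke

/-- The norm `N(I)` of an ideal (`0` for the zero ideal, whose residue ring is infinite). -/
noncomputable def norm {R : Subring ℂ} (I : Ideal R) : ℝ := (Nat.card (R ⧸ I) : ℝ)

/-- `θ`, a function on the ideals of `R`, is a primitive Hecke character of conductor `q` and infinity
type `(n, 0)`: it is multiplicative, vanishes exactly at the zero ideal and the ideals not prime to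
`q`, satisfies `θ((α)) = α ^ n` for `α ≡ 1 mod q`, and this fails for every strictly larger ideal `q'`
in place of `q`. -/
structure IsHecke {R : Subring ℂ} (n : ℕ) (q : Ideal R) (θ : Ideal R → ℂ) : Prop where
  ne_bot : q ≠ ⊥
  mul : ∀ I J : Ideal R, θ (I * J) = θ I * θ J
  eq_zero : ∀ I : Ideal R, θ I = 0 ↔ (I = ⊥ ∨ ¬ IsCoprime I q)
  principal : ∀ α : R, α ≠ 0 → α - 1 ∈ q → θ (Ideal.span {α}) = (α : ℂ) ^ n
  primitive : ∀ q' : Ideal R, q < q' → ∃ α : R, α ≠ 0 ∧ α - 1 ∈ q' ∧ IsCoprime (Ideal.span {α}) q ∧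
    θ (Ideal.span {α}) ≠ (α : ℂ) ^ n

/-- All primitive Hecke characters of infinity type `(2m - 1, 0)` whose conductor has norm at
most `X`. -/
def Family (R : Subring ℂ) (m X : ℕ) : Set (Ideal R → ℂ) :=
  {θ | ∃ q : Ideal R, IsHecke (2 * m - 1) q θ ∧ norm q ≤ X}

/-- `F` is the `L`-function of `θ`: an entire function, not identically zero near the
centre `m`, with `F(s) = ∑ θ(I) N(I)^(-s)` for `Re s > m + 1/2`. -/
def IsLFunction {R : Subring ℂ} (m : ℕ) (θ : Ideal R → ℂ) (F : ℂ → ℂ) : Prop :=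
  Differentiable ℂ F ∧ analyticOrderAt F (m : ℂ) ≠ ⊤ ∧ ∀ s : ℂ, (m : ℝ) + 1 / 2 < s.re →
    HasSum (fun I : Ideal R => θ I * (norm I : ℂ) ^ (-s)) (F s)

/-- `exp(-c (log X)^(1/3))`. -/
noncomputable def decay (c : ℝ) (X : ℕ) : ℝ := Real.exp (-c * (Real.log X) ^ ((1 : ℝ) / 3))

theorem isHecke_iff {R : Subring ℂ} (n : ℕ) (f : Ideal R) (ψ : Ideal R → ℂ) :
    IsHecke n f ψ ↔ Pool.Agent.W192.HK.HC n f ψ :=
  ⟨fun h => ⟨h.ne_bot, h.mul, h.eq_zero, h.principal, h.primitive⟩,
    fun h => ⟨h.ne, h.mul, h.zero, h.princ, h.prim⟩⟩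

/-- **Main theorem.** Let `R = ℤ + ℤ ω` be a subring of `ℂ` that is a lattice and a Dedekind domain.
All the primitive Hecke characters `θ` of type `(2m - 1, 0)`, `m ≥ 1`, have entire `L`-functions
`L(θ, s)`.  There are finitely many `θ` with a conductor of norm at most `X`, for large `X` at least
`c (X / log X)²`, uniformly in `m`.  For every `ε > 0` there are `C`, `c > 0` such that for all
`X ≥ 1` and `1 ≤ m ≤ X ^ (1 - ε)`: the sum over all these `θ` of the order of vanishing of `L(θ, s)` at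
the central point `s = m`, and the number of these `θ` with `L(θ, m) = 0`, are at most
`C exp(-c (log X)^(1/3))` times the number of these `θ`. -/
theorem result (R : Subring ℂ) (ω : ℂ) (hω : 0 < ω.im)
    (hR : ∀ z : ℂ, z ∈ R ↔ ∃ x y : ℤ, z = x + y * ω) (hded : IsDedekindDomain R) :
    ∃ L : ℕ → (Ideal R → ℂ) → ℂ → ℂ,
      (∀ (m : ℕ) (q : Ideal R) (θ : Ideal R → ℂ), 1 ≤ m → IsHecke (2 * m - 1) q θ →
        IsLFunction m θ (L m θ)) ∧
      (∀ m X : ℕ, (Family R m X).Finite) ∧
      (∃ c X₀ : ℝ, 0 < c ∧ ∀ m X : ℕ, X₀ ≤ X →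
        c * ((X : ℝ) / Real.log X) ^ 2 ≤ (Family R m X).ncard) ∧
      ∀ ε : ℝ, 0 < ε → ∃ C c : ℝ, 0 < C ∧ 0 < c ∧
        ∀ X m : ℕ, 1 ≤ X → 1 ≤ m → (m : ℝ) ≤ (X : ℝ) ^ (1 - ε) →
          ((∑ᶠ θ ∈ Family R m X, analyticOrderNatAt (L m θ) m : ℕ) : ℝ) ≤
            C * decay c X * (Family R m X).ncard ∧
          ({θ ∈ Family R m X | L m θ m = 0}.ncard : ℝ) ≤
            C * decay c X * (Family R m X).ncard := by
  classical
  have hbasic := Pool.Agent.W287.HK.h_basic
  have hcls := Pool.Agent.W571.HK.h_cls hbasic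
  have hfp := Pool.Agent.W53.HK.h_fp hbasic hcls
  have hfpr := Pool.Agent.W366.HK.h_fpr hbasic hcls
  have hlat := Pool.Agent.W585.HK.h_lat hbasic
  have hker := Pool.Agent.W692.HK.h_ker hbasic hcls hfpr
  have hcnt := Pool.Agent.W584.HK.h_cnt hbasic hcls hfpr hlat hker
  have hdivr := Pool.Agent.W513.HK.h_divr hbasic
  have hmu := Pool.Agent.W822.HK.h_mu hbasic
  have hcount := Pool.Agent.W240.HK.h_count hbasic hcnt hdivr
  have hdiv := Pool.Agent.W216.CY.t_div
  have hdec := Pool.Agent.W856.HK.h_dec hbasic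
  have hgauss := Pool.Agent.W636.HK.h_gauss hbasic hfp
  have hpois := Pool.Agent.W348.HK.h_pois hbasic
  have htheta := Pool.Agent.TH936.HK.h_theta hbasic hfp hdec hgauss hpois hcnt
  have hafe := Pool.Agent.TH936.HK.h_afe hbasic hfp hcnt hgauss htheta
  have htail := Pool.Agent.Y683.tailz hbasic hcnt hcount
  have hmain := Pool.Agent.Y683.mainb hbasic hcnt hdivr htail
  have hdual := Pool.Agent.Y683.dualb hdiv hbasic hcnt hker hfpr
  have hfin := Pool.Agent.Y683.finb hdiv hbasic hcnt hmu hmain hdual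
  have hQ : Pool.Agent.W192.HK.QR R ω := ⟨hω, hR, hded⟩
  obtain ⟨C0, hC⟩ := Pool.Agent.Y683.AA.exists_idCount hbasic hcnt hQ
  obtain ⟨L0, hL0, K, ho⟩ := Pool.Agent.Y683.AA.exists_L hbasic hcls hcnt hfpr hfp hdec hgauss
    htheta hafe hfin hQ
  have hfam : ∀ m X : ℕ, Family R m X = Pool.Agent.Y683.AA.Hk R m X := by
    intro m X
    ext θ
    constructor
    · rintro ⟨q, h1, h2⟩
      refine ⟨q, (isHecke_iff _ _ _).1 h1, ?_⟩
      have : ((Nat.card (R ⧸ q) : ℕ) : ℝ) ≤ X := h2
      exact_mod_cast this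
    · rintro ⟨q, h1, h2⟩
      refine ⟨q, (isHecke_iff _ _ _).2 h1, ?_⟩
      change ((Nat.card (R ⧸ q) : ℕ) : ℝ) ≤ X
      exact_mod_cast h2
  have hfinF : ∀ m X : ℕ, (Family R m X).Finite := fun m X => by
    rw [hfam]
    exact Pool.Agent.Y683.AA.hk_finite hbasic hcls hfp hQ hC m X
  refine ⟨L0, fun m q θ hm hθ => ?_, hfinF, ?_, fun ε hε => ?_⟩
  · have h := hL0 m q θ hm ((isHecke_iff _ _ _).1 hθ)
    exact ⟨h.diff, h.ord, h.sum⟩
  · obtain ⟨c, X0, hc, hX0, h1⟩ := Pool.Agent.Y683.AA.hk_lower hbasic hcls hfp hQ hC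
    refine ⟨c / 9, max X0 3, by positivity, fun m X hX => ?_⟩
    have h2 := h1 m X ((le_max_left _ _).trans hX)
    rw [hfam]
    have h3 : (3 : ℝ) ≤ X := (le_max_right _ _).trans hX
    have hlog : 1 ≤ Real.log X := by
      rw [Real.le_log_iff_exp_le (by linarith)]
      have := Real.exp_one_lt_d9
      linarith
    rw [div_pow, ← mul_div_assoc, div_le_iff₀ (by positivity)]
    have h4 : (1 + 2 * Real.log X) ^ 2 ≤ 9 * (Real.log X) ^ 2 := by nlinarith
    have h5 := mul_le_mul_of_nonneg_left h4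
      (Nat.cast_nonneg (α := ℝ) (Pool.Agent.Y683.AA.Hk R m X).ncard)
    linarith
  · obtain ⟨C, c, hC1, hc, h1⟩ := Pool.Agent.Y683.AA.hecke_avg hbasic hcls hfp hdivr hQ hC ho hε
    refine ⟨C, c, hC1, hc, fun X m hX hm hmX => ?_⟩
    have h2 := h1 X m hX hm hmX
    rw [← hfam] at h2
    refine ⟨h2, le_trans ?_ h2⟩
    refine (Nat.cast_le (α := ℝ)).2 (Pool.Agent.Y683.AA.ncard_le_fs
      (hfinF m X) _ _ fun θ hθ h0 hz => ?_)
    obtain ⟨q, h4, -⟩ := hθ
    have h5 := hL0 m q θ hm ((isHecke_iff _ _ _).1 h4)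
    have h7 : analyticOrderAt (L0 m θ) (m : ℂ) = 0 := by
      rw [← Nat.cast_analyticOrderNatAt h5.ord, hz]
      rfl
    exact ((h5.diff.analyticAt _).analyticOrderAt_eq_zero.1 h7) h0

end Pool.Agent.Results.MP_29b22a_nt.AlmostAllHecke
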