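import Pool.Agent.X284.HB.Unif
import Pool.Agent.Y683.Cent
import Pool.Agent.W765.HK.Pair
import Pool.Agent.W216.CY.Div
import Pool.Agent.W287.HK.Basic
import Pool.Agent.W571.HK.Cls
import Pool.Agent.W53.HK.Fp
import Pool.Agent.W366.HK.Fpr
import Pool.Agent.W585.HK.LAT
import Pool.Agent.W692.HK.Ker
import Pool.Agent.W584.HK.CNT
import Pool.Agent.W513.HK.Divr
import Pool.Agent.W822.HK.MU
import Pool.Agent.W240.HK.Count
import Pool.Agent.W856.HK.Dec
import Pool.Agent.W636.HK.Gauss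
import Pool.Agent.W348.HK.Pois

/-!
# All odd degrees of abelian varieties with complex multiplication, twisted by all finite characters

`R` is the ring of integers of an imaginary quadratic field `K` of any class number.  Let `A` be an
abelian variety over `K` of dimension `g` whose `l`-adic representation `H^1` is the sum of the Hecke
characters `ψ i` of type `(1, 0)` and of their complex conjugates, `i < g` (for instance a product of
elliptic curves with complex multiplication by `K`).  Then `H^(2m-1)(A)` is the sum of the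
`∏_{i ∈ S} ψ i ∏_{i ∈ T} conj (ψ i)` over the pairs `(S, T)` with `|S| + |T| = 2m - 1`.  For `|T| < |S|`
this is `N^|T| Ψ_(S,T)`, where `Ψ_(S,T) = ∏_{i ∈ S} ψ i (∏_{i ∈ T} ψ i)⁻¹` is a Hecke character of type
`(2 j - 1, 0)`, `j = m - |T|`, and for `|S| < |T|` it is the conjugate of such a character.  So the twist
of `H^(2m-1)(A)` by a character `χ` of finite order has the `L`-function

  `L(H^(2m-1)(A), χ, s) = ∏_(S,T) L(Ψ_(S,T) χ, s - |T|) L(conj Ψ_(S,T) χ, s - |T|)`,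

the product over the pairs with `|T| < |S|`, with primitive characters everywhere.  Its order of
vanishing at the central point `s = m` is, by the conjecture, the dimension of the `χ`-part of the
Chow group `CH^m(A)^0` over the abelian extension of `K` cut out by `χ`.

* For every degree `2m - 1`, on average over **all** `χ` with a conductor of norm at most `X`, the order
  of vanishing of `L(H^(2m-1)(A), χ, s)` at `s = m` is at most `C exp(-c (log X)^(1/3))`.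
* For all ideals `q` of norm at most `X` but at most `C X exp(-c (log X)^(1/3))`, the order of
  vanishing at `s = m` of the product of the `L(H^(2m-1)(A), χ, s)` over **all** `χ` modulo `q`, which is
  the `L`-function of `H^(2m-1)(A)` over the ray class field of conductor `q`, is at most
  `C N(q)^(2/3 + ε)`.

The constants depend on `R`, `m` and `ε`, with an explicit dependence on `g` and on the conductors of the
`ψ i`.  For `m = 1` this is `AllAbelianCharacters` of `MP_26073e_nt`.  New here: imprimitive characters of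
any type `(2 j - 1, 0)`, with the uniformity of the library `Pool.Agent.Y683.AA` in the type.
-/

set_option autoImplicit false

open Complex

namespace Pool.Agent.Results.MP_29b22a_nt.CMAbelianAllDegrees

/-- The norm `N(I)` of an ideal (`0` for the zero ideal, whose residue ring is infinite). -/
noncomputable def norm {R : Subring ℂ} (I : Ideal R) : ℝ := (Nat.card (R ⧸ I) : ℝ)

/-- `θ`, a function on the ideals of `R`, is a primitive Hecke character of conductor `q` and infinity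
type `(n, 0)`: it is multiplicative, vanishes exactly at the zero ideal and the ideals not prime to
`q`, satisfies `θ((α)) = α ^ n` for `α ≡ 1 mod q`, and this fails for every strictly larger ideal `q'`
in place of `q`.  For `n = 0` these are the primitive characters of finite order. -/
structure IsHecke {R : Subring ℂ} (n : ℕ) (q : Ideal R) (θ : Ideal R → ℂ) : Prop where
  ne_bot : q ≠ ⊥
  mul : ∀ I J : Ideal R, θ (I * J) = θ I * θ J
  eq_zero : ∀ I : Ideal R, θ I = 0 ↔ (I = ⊥ ∨ ¬ IsCoprime I q)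
  principal : ∀ α : R, α ≠ 0 → α - 1 ∈ q → θ (Ideal.span {α}) = (α : ℂ) ^ n
  primitive : ∀ q' : Ideal R, q < q' → ∃ α : R, α ≠ 0 ∧ α - 1 ∈ q' ∧ IsCoprime (Ideal.span {α}) q ∧
    θ (Ideal.span {α}) ≠ (α : ℂ) ^ n

/-- All primitive characters `χ` of finite order whose conductor has norm at most `X`. -/
def Characters (R : Subring ℂ) (X : ℕ) : Set (Ideal R → ℂ) :=
  {χ | ∃ c : Ideal R, IsHecke 0 c χ ∧ norm c ≤ X}

/-- All primitive characters of finite order whose conductor divides `q`: the characters of the Galois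
group of the ray class field of conductor `q`. -/
def Modulo {R : Subring ℂ} (q : Ideal R) : Set (Ideal R → ℂ) :=
  {χ | ∃ c : Ideal R, IsHecke 0 c χ ∧ q ≤ c}

/-- The pairs `(S, T)` of subsets of `{0, ..., g - 1}` with `|S| + |T| = k` and `|T| < |S|`. -/
def Pairs (g k : ℕ) : Finset (Finset (Fin g) × Finset (Fin g)) :=
  Finset.univ.filter fun p => p.1.card + p.2.card = k ∧ p.2.card < p.1.card

/-- `Ψ_(S,T)(I) = ∏_{i ∈ S} ψ i (I) (∏_{i ∈ T} ψ i (I))⁻¹`, and `0` if `I` is not prime to the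
conductors. -/
noncomputable def Psi {R : Subring ℂ} {g : ℕ} (ψ : Fin g → Ideal R → ℂ)
    (p : Finset (Fin g) × Finset (Fin g)) (I : Ideal R) : ℂ :=
  (∏ i ∈ p.1, ψ i I) * (∏ i ∈ p.2, ψ i I)⁻¹

/-- `θ` is the primitive Hecke character of type `(2 j - 1, 0)` equal to `Ψ χ` where this is not
zero. -/
def IsTwist {R : Subring ℂ} (j : ℕ) (Ψ χ θ : Ideal R → ℂ) : Prop :=
  (∃ q : Ideal R, IsHecke (2 * j - 1) q θ) ∧ ∀ I : Ideal R, Ψ I * χ I ≠ 0 → θ I = Ψ I * χ I

/-- `F` is entire, not identically zero near `j`, and `F(s) = L(Ψ χ, s) L(conj Ψ χ, s)` for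
`Re s > j + 1/2`: the product of the Dirichlet series `∑ θ(I) N(I)^(-s)` and
`∑ conj θ'(I) N(I)^(-s)`, where `θ` and `θ'` are the primitive characters of `Ψ χ` and
`Ψ conj χ`. -/
def IsLFunction {R : Subring ℂ} (j : ℕ) (Ψ χ : Ideal R → ℂ) (F : ℂ → ℂ) : Prop :=
  Differentiable ℂ F ∧ analyticOrderAt F (j : ℂ) ≠ ⊤ ∧ ∃ θ θ' : Ideal R → ℂ,
    IsTwist j Ψ χ θ ∧ IsTwist j Ψ (fun I => (starRingEnd ℂ) (χ I)) θ' ∧
    ∀ s : ℂ, (j : ℝ) + 1 / 2 < s.re → ∃ a b : ℂ,
      HasSum (fun I : Ideal R => θ I * (norm I : ℂ) ^ (-s)) a ∧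
      HasSum (fun I : Ideal R => (starRingEnd ℂ) (θ' I) * (norm I : ℂ) ^ (-s)) b ∧ F s = a * b

/-- `L(H^(2m-1)(A), χ, s) = ∏_(S,T) L(Ψ_(S,T) χ, s - |T|) L(conj Ψ_(S,T) χ, s - |T|)`, where
`L j Ψ χ s = L(Ψ χ, s) L(conj Ψ χ, s)` for `Ψ` of type `(2 j - 1, 0)`; here `j = m - |T|`. -/
noncomputable def LA {R : Subring ℂ} (L : ℕ → (Ideal R → ℂ) → (Ideal R → ℂ) → ℂ → ℂ) (m : ℕ)
    {g : ℕ} (ψ : Fin g → Ideal R → ℂ) (χ : Ideal R → ℂ) (s : ℂ) : ℂ :=
  ∏ p ∈ Pairs g (2 * m - 1), L (m - p.2.card) (Psi ψ p) χ (s - (p.2.card : ℂ))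

/-- The sum of the orders of vanishing at `s = m` of `L(H^(2m-1)(A), χ, s)` over the `χ` in `S`. -/
noncomputable def totalOrder {R : Subring ℂ} (L : ℕ → (Ideal R → ℂ) → (Ideal R → ℂ) → ℂ → ℂ)
    (m : ℕ) {g : ℕ} (ψ : Fin g → Ideal R → ℂ) (S : Set (Ideal R → ℂ)) : ℕ :=
  ∑ᶠ χ ∈ S, analyticOrderNatAt (LA L m ψ χ) (m : ℂ)

/-- `exp(-c (log X)^(1/3))`. -/
noncomputable def decay (c : ℝ) (X : ℕ) : ℝ := Real.exp (-c * (Real.log X) ^ ((1 : ℝ) / 3))

/-- The dimension `(2g choose 2m-1)` of `H^(2m-1)(A)`. -/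
def betti (g m : ℕ) : ℕ := (2 * g).choose (2 * m - 1)

/-- The nonzero ideals `q` of norm at most `X` for which the order of vanishing at `s = m` over the
ray class field of conductor `q` is larger than `C b (∏ N(f i)) N(q)^(2/3 + ε)`, where `b` is the
dimension of `H^(2m-1)(A)`. -/
def Exceptional {R : Subring ℂ} (L : ℕ → (Ideal R → ℂ) → (Ideal R → ℂ) → ℂ → ℂ) (m : ℕ) {g : ℕ}
    (f : Fin g → Ideal R) (ψ : Fin g → Ideal R → ℂ) (C ε : ℝ) (X : ℕ) : Set (Ideal R) :=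
  {q | q ≠ ⊥ ∧ norm q ≤ X ∧
    C * betti g m * (∏ i, norm (f i)) * norm q ^ (2 / 3 + ε) < totalOrder L m ψ (Modulo q)}

theorem isHecke_iff {R : Subring ℂ} (n : ℕ) (f : Ideal R) (ψ : Ideal R → ℂ) :
    IsHecke n f ψ ↔ Pool.Agent.W192.HK.HC n f ψ :=
  ⟨fun h => ⟨h.ne_bot, h.mul, h.eq_zero, h.principal, h.primitive⟩,
    fun h => ⟨h.ne, h.mul, h.zero, h.princ, h.prim⟩⟩

theorem cpow_cj {R : Subring ℂ} (I : Ideal R) (s : ℂ) :
    (starRingEnd ℂ) ((norm I : ℂ) ^ (-(starRingEnd ℂ) s)) = (norm I : ℂ) ^ (-s) := by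
  have h1 : (norm I : ℂ) = ((Nat.card (R ⧸ I) : ℕ) : ℂ) := by
    unfold norm
    push_cast
    rfl
  rw [h1, ← map_neg, Complex.cpow_conj _ _ (by rw [Complex.natCast_arg]; exact Real.pi_pos.ne),
    Complex.conj_conj, Complex.conj_natCast]

theorem pairs_card (g k : ℕ) : (Pairs g k).card ≤ (2 * g).choose k := by
  classical
  have h1 : (Finset.powersetCard k (Finset.univ : Finset (Fin g ⊕ Fin g))).card =
      (2 * g).choose k := by
    rw [Finset.card_powersetCard, Finset.card_univ, Fintype.card_sum, Fintype.card_fin]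
    congr 1
    ring
  rw [← h1]
  refine Finset.card_le_card_of_injOn (fun p => p.1.disjSum p.2) ?_ ?_
  · intro p hp
    have hp' := (Finset.mem_filter.1 (Finset.mem_coe.1 hp)).2
    refine Finset.mem_coe.2 (Finset.mem_powersetCard.2 ⟨Finset.subset_univ _, ?_⟩)
    rw [Finset.card_disjSum]
    exact hp'.1
  · rintro ⟨a, b⟩ - ⟨a', b'⟩ - h
    have h2 : a.disjSum b = a'.disjSum b' := h
    have h3 := congrArg Finset.toLeft h2
    have h4 := congrArg Finset.toRight h2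
    rw [Finset.toLeft_disjSum, Finset.toLeft_disjSum] at h3
    rw [Finset.toRight_disjSum, Finset.toRight_disjSum] at h4
    rw [h3, h4]

theorem pairs_iff {g m : ℕ} (hm : 1 ≤ m) {p : Finset (Fin g) × Finset (Fin g)}
    (hp : p ∈ Pairs g (2 * m - 1)) :
    p.2.card < m ∧ 1 ≤ m - p.2.card ∧ p.1.card = 2 * (m - p.2.card) - 1 + p.2.card := by
  have h := (Finset.mem_filter.1 hp).2
  omega

/-- the conductor of `Ψ_(S,T)` divides this -/
noncomputable def cnd {R : Subring ℂ} {g : ℕ} (f : Fin g → Ideal R)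
    (p : Finset (Fin g) × Finset (Fin g)) : Ideal R := by
  classical
  exact ∏ i ∈ p.1 ∪ p.2, f i

open Pool.Agent.W192.HK Pool.Agent.Y683.AA in
theorem imp_psi {R : Subring ℂ} {ω : ℂ} (hR : QR R ω) {g m : ℕ} (hm : 1 ≤ m)
    {f : Fin g → Ideal R} {ψ : Fin g → Ideal R → ℂ} (hψ : ∀ i, HC 1 (f i) (ψ i))
    {p : Finset (Fin g) × Finset (Fin g)} (hp : p ∈ Pairs g (2 * m - 1)) :
    Imp (2 * (m - p.2.card) - 1) (cnd f p) (Psi ψ p) := by
  classical
  have := hR.ded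
  obtain ⟨h1, h2, h3⟩ := pairs_iff hm hp
  have hle : ∀ i ∈ p.1 ∪ p.2, cnd f p ≤ f i := fun i hi =>
    Ideal.le_of_dvd (Finset.dvd_prod_of_mem f hi)
  have hcop : ∀ I : Ideal R, IsCoprime I (cnd f p) ↔ ∀ i ∈ p.1 ∪ p.2, IsCoprime I (f i) := by
    intro I
    unfold cnd
    rw [IsCoprime.prod_right_iff]
  refine ⟨?_, fun I J => ?_, fun I => ?_, fun α hα h4 => ?_⟩
  · change ∏ i ∈ p.1 ∪ p.2, f i ≠ 0
    exact Finset.prod_ne_zero_iff.2 fun i _ => (hψ i).ne
  · unfold Psi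
    simp only [(hψ _).mul, Finset.prod_mul_distrib, mul_inv]
    ring
  · unfold Psi
    rw [mul_eq_zero, inv_eq_zero, Finset.prod_eq_zero_iff, Finset.prod_eq_zero_iff, hcop]
    constructor
    · rintro (⟨i, hi, h⟩ | ⟨i, hi, h⟩)
      · rcases ((hψ i).zero I).1 h with h | h
        · exact Or.inl h
        · exact Or.inr fun h' => h (h' i (Finset.mem_union_left _ hi))
      · rcases ((hψ i).zero I).1 h with h | h
        · exact Or.inl h
        · exact Or.inr fun h' => h (h' i (Finset.mem_union_right _ hi))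
    · rintro (h | h)
      · have hne : p.1.Nonempty := Finset.card_pos.1 (by omega)
        obtain ⟨i, hi⟩ := hne
        exact Or.inl ⟨i, hi, ((hψ i).zero I).2 (Or.inl h)⟩
      · push Not at h
        obtain ⟨i, hi, h⟩ := h
        rcases Finset.mem_union.1 hi with hi | hi
        · exact Or.inl ⟨i, hi, ((hψ i).zero I).2 (Or.inr h)⟩
        · exact Or.inr ⟨i, hi, ((hψ i).zero I).2 (Or.inr h)⟩
  · have h5 : ∀ i ∈ p.1 ∪ p.2, ψ i (sp α) = (α : ℂ) := fun i hi => by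
      have := (hψ i).princ α hα (hle i hi h4)
      rwa [pow_one] at this
    have hα0 : (α : ℂ) ≠ 0 := fun h => hα (Subtype.ext h)
    unfold Psi
    rw [Finset.prod_congr rfl fun i hi => h5 i (Finset.mem_union_left _ hi),
      Finset.prod_congr rfl fun i hi => h5 i (Finset.mem_union_right _ hi), Finset.prod_const,
      Finset.prod_const, h3, pow_add, mul_assoc, mul_inv_cancel₀ (pow_ne_zero _ hα0), mul_one]

open Pool.Agent.W192.HK Pool.Agent.Y683.AA in
theorem nn_cnd {R : Subring ℂ} {ω : ℂ} (hb : H_BASIC) (hR : QR R ω) {g : ℕ}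
    {f : Fin g → Ideal R} (hf : ∀ i, f i ≠ ⊥) (p : Finset (Fin g) × Finset (Fin g)) :
    (nn (cnd f p) : ℝ) ≤ ∏ i, (nn (f i) : ℝ) := by
  classical
  have := hR.ded
  have h0 : ∀ s : Finset (Fin g), nn (∏ i ∈ s, f i) = ∏ i ∈ s, nn (f i) := by
    intro s
    induction s using Finset.induction_on with
    | empty =>
      rw [Finset.prod_empty, Finset.prod_empty, Ideal.one_eq_top]
      change Nat.card (R ⧸ (⊤ : Ideal R)) = 1
      have : Subsingleton (R ⧸ (⊤ : Ideal R)) := Ideal.Quotient.subsingleton_iff.2 rfl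
      exact Nat.card_unique
    | insert i s hi ih =>
      rw [Finset.prod_insert hi, Finset.prod_insert hi, nn_mul hb hR, ih]
  have h1 : nn (cnd f p) ≤ ∏ i, nn (f i) := by
    change nn (∏ i ∈ p.1 ∪ p.2, f i) ≤ _
    rw [h0]
    refine Finset.prod_le_prod_of_subset_of_one_le' (Finset.subset_univ _) fun i _ _ => ?_
    exact nn_pos hb hR (hf i)
  exact_mod_cast h1

/-- the order of vanishing of a translate -/
theorem order_shift {F : ℂ → ℂ} {t z : ℂ} (h : AnalyticAt ℂ F (z - t)) :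
    AnalyticAt ℂ (fun s => F (s - t)) z ∧
      analyticOrderAt (fun s => F (s - t)) z = analyticOrderAt F (z - t) := by
  have h1 : AnalyticAt ℂ (fun s : ℂ => s - t) z := analyticAt_id.sub analyticAt_const
  have h2 : AnalyticAt ℂ (F ∘ fun s : ℂ => s - t) z := AnalyticAt.comp (by simpa using h) h1
  refine ⟨h2, ?_⟩
  have h3 : deriv (fun s : ℂ => s - t) z ≠ 0 := by
    rw [deriv_sub_const, deriv_id'']
    exact one_ne_zero
  exact analyticOrderAt_comp_of_deriv_ne_zero (f := F) h1 h3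

/-- **Main theorem.** Let `R = ℤ + ℤ ω` be a subring of `ℂ` that is a lattice and a Dedekind domain.
For all Hecke characters `ψ i`, `i < g`, of type `(1, 0)`, every `m ≥ 1`, every pair `(S, T)` with
`|S| + |T| = 2m - 1`, `|T| < |S|`, and every character `χ` of finite order, the function
`L(Ψ_(S,T) χ, s) L(conj Ψ_(S,T) χ, s)` is entire and not identically zero.  There are finitely many `χ`
with a conductor of norm at most `X`, for large `X` at least `c (X / log X)²`, and finitely many `χ`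
modulo `q`.

(A) For every `m ≥ 1` there are `C`, `c > 0` (depending on `R` and `m` only) such that for all `g`, all
Hecke characters `ψ i` of type `(1, 0)` and conductor `f i`, `i < g`, and all `X ≥ 1`: the average order
of vanishing of `L(H^(2m-1)(A), χ, s)` at `s = m`, and the proportion of the `χ` for which it is zero at
`s = m`, over **all** `χ` with a conductor of norm at most `X`, are at most
`C b (∏ N(f i))³ exp(-c (log X)^(1/3))`, where `b = (2g choose 2m-1)` is the dimension of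
`H^(2m-1)(A)`.

(B) For `m ≥ 1` and `ε > 0` there are `C`, `c > 0` such that for all `g`, `ψ i`, `f i`, and `X ≥ 1`: for
all nonzero ideals `q` of norm at most `X`, with at most `C b (∏ N(f i)) X exp(-c (log X)^(1/3))`
exceptions, the sum of the orders of vanishing of `L(H^(2m-1)(A), χ, s)` at `s = m` over **all** `χ`
modulo `q` is at most `C b (∏ N(f i)) N(q)^(2/3 + ε)`. -/
theorem result (R : Subring ℂ) (ω : ℂ) (hω : 0 < ω.im)
    (hR : ∀ z : ℂ, z ∈ R ↔ ∃ x y : ℤ, z = x + y * ω) (hded : IsDedekindDomain R) :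
    ∃ L : ℕ → (Ideal R → ℂ) → (Ideal R → ℂ) → ℂ → ℂ,
      (∀ (g m : ℕ) (f : Fin g → Ideal R) (ψ : Fin g → Ideal R → ℂ), 1 ≤ m →
        (∀ i, IsHecke 1 (f i) (ψ i)) → ∀ p ∈ Pairs g (2 * m - 1),
        ∀ (c : Ideal R) (χ : Ideal R → ℂ), IsHecke 0 c χ →
        IsLFunction (m - p.2.card) (Psi ψ p) χ (L (m - p.2.card) (Psi ψ p) χ)) ∧
      (∀ X : ℕ, (Characters R X).Finite) ∧
      (∀ q : Ideal R, q ≠ ⊥ → (Modulo q).Finite) ∧
      (∃ c X₀ : ℝ, 0 < c ∧ ∀ X : ℕ, X₀ ≤ X →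
        c * ((X : ℝ) / Real.log X) ^ 2 ≤ (Characters R X).ncard) ∧
      (∀ m : ℕ, 1 ≤ m → ∃ C c : ℝ, 0 < C ∧ 0 < c ∧
        ∀ (g : ℕ) (f : Fin g → Ideal R) (ψ : Fin g → Ideal R → ℂ), (∀ i, IsHecke 1 (f i) (ψ i)) →
          ∀ X : ℕ, 1 ≤ X →
            (totalOrder L m ψ (Characters R X) : ℝ) ≤
              C * betti g m * (∏ i, norm (f i)) ^ 3 * decay c X * (Characters R X).ncard ∧
            ({χ ∈ Characters R X | LA L m ψ χ m = 0}.ncard : ℝ) ≤
              C * betti g m * (∏ i, norm (f i)) ^ 3 * decay c X * (Characters R X).ncard) ∧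
      ∀ m : ℕ, 1 ≤ m → ∀ ε : ℝ, 0 < ε → ∃ C c : ℝ, 0 < C ∧ 0 < c ∧
        ∀ (g : ℕ) (f : Fin g → Ideal R) (ψ : Fin g → Ideal R → ℂ), (∀ i, IsHecke 1 (f i) (ψ i)) →
          ∀ X : ℕ, 1 ≤ X → (Exceptional L m f ψ C ε X).Finite ∧
            ((Exceptional L m f ψ C ε X).ncard : ℝ) ≤
              C * betti g m * (∏ i, norm (f i)) * X * decay c X := by
  classical
  have hbasic := Pool.Agent.W287.HK.h_basic
  have hcls := Pool.Agent.W571.HK.h_cls hbasic
  have hfp := Pool.Agent.W53.HK.h_fp hbasic hcls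
  have hfpr := Pool.Agent.W366.HK.h_fpr hbasic hcls
  have hlat := Pool.Agent.W585.HK.h_lat hbasic
  have hker := Pool.Agent.W692.HK.h_ker hbasic hcls hfpr
  have hcnt := Pool.Agent.W584.HK.h_cnt hbasic hcls hfpr hlat hker
  have hdivr := Pool.Agent.W513.HK.h_divr hbasic
  have hmu := Pool.Agent.W822.HK.h_mu hbasic
  have hcount := Pool.Agent.W240.HK.h_count hbasic hcnt hdivr
  have hdiv := Pool.Agent.W216.CY.t_div
  have hdec := Pool.Agent.W856.HK.h_dec hbasic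
  have hgauss := Pool.Agent.W636.HK.h_gauss hbasic hfp
  have hpois := Pool.Agent.W348.HK.h_pois hbasic
  have htheta := Pool.Agent.TH936.HK.h_theta hbasic hfp hdec hgauss hpois hcnt
  have hafe := Pool.Agent.TH936.HK.h_afe hbasic hfp hcnt hgauss htheta
  have htail := Pool.Agent.Y683.tailz hbasic hcnt hcount
  have hmain := Pool.Agent.Y683.mainb hbasic hcnt hdivr htail
  have hdual := Pool.Agent.Y683.dualb hdiv hbasic hcnt hker hfpr
  have hfin := Pool.Agent.Y683.finb hdiv hbasic hcnt hmu hmain hdual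
  have hQ : Pool.Agent.W192.HK.QR R ω := ⟨hω, hR, hded⟩
  obtain ⟨C0, hC⟩ := Pool.Agent.Y683.AA.exists_idCount hbasic hcnt hQ
  obtain ⟨L0, hL0, K, ho⟩ := Pool.Agent.Y683.AA.exists_L hbasic hcls hcnt hfpr hfp hdec hgauss
    htheta hafe hfin hQ
  -- the twists
  have htwe : ∀ (σ : ℂ →+* ℂ) (j : ℕ) (ψ : Ideal R → ℂ), ∃ t : (Ideal R → ℂ) → Ideal R → ℂ,
      ∀ f : Ideal R, Pool.Agent.Y683.AA.Imp (2 * j - 1) f ψ →
        Pool.Agent.X284.HB.TwM j σ f ψ t := by
    intro σ j ψ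
    have h1 : ∀ χ : Ideal R → ℂ, ∃ θ : Ideal R → ℂ, ∀ f c : Ideal R,
        Pool.Agent.Y683.AA.Imp (2 * j - 1) f ψ → Pool.Agent.W192.HK.HC 0 c χ →
        ∃ q : Ideal R, f * c ≤ q ∧ Pool.Agent.W192.HK.HC (2 * j - 1) q θ ∧
          Pool.Agent.Y683.AA.Agr σ θ ψ χ := by
      intro χ
      by_cases h : ∃ f c : Ideal R, Pool.Agent.Y683.AA.Imp (2 * j - 1) f ψ ∧
          Pool.Agent.W192.HK.HC 0 c χ
      · obtain ⟨f0, c0, hψ0, hχ0⟩ := h
        obtain ⟨q0, θ0, -, h2, h3⟩ := Pool.Agent.X284.HB.exists_twd' hbasic hcls hQ σ hψ0 hχ0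
        refine ⟨θ0, fun f c hψ hχ => ?_⟩
        obtain ⟨q, θ, h4, h5, h6⟩ := Pool.Agent.X284.HB.exists_twd' hbasic hcls hQ σ hψ hχ
        have h7 : θ = θ0 := Pool.Agent.X284.HB.tw_unique' hbasic hfp hQ hψ hχ h5 h2 h6 h3
        rw [← h7]
        exact ⟨q, h4, h5, h6⟩
      · exact ⟨0, fun f c hψ hχ => absurd ⟨f, c, hψ, hχ⟩ h⟩
    choose t ht using h1
    exact ⟨t, fun f hψ c χ hχ => ht χ f c hψ hχ⟩
  choose tw htw using htwe
  set σ : ℂ →+* ℂ := RingHom.id ℂ with hσ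
  set τ : ℂ →+* ℂ := starRingEnd ℂ with hτ
  set L : ℕ → (Ideal R → ℂ) → (Ideal R → ℂ) → ℂ → ℂ := fun j Ψ χ s =>
    L0 j (tw σ j Ψ χ) s * Pool.Agent.Y683.AA.cj (L0 j (tw τ j Ψ χ)) s with hL
  set o : ℕ → (Ideal R → ℂ) → ℕ := fun m θ => analyticOrderNatAt (L0 m θ) (m : ℂ) with hodef
  have hcj : ∀ j : ℕ, (starRingEnd ℂ) ((j : ℕ) : ℂ) = ((j : ℕ) : ℂ) := fun j => by simp
  have hLF : ∀ (j : ℕ) (f c : Ideal R) (Ψ χ : Ideal R → ℂ), 1 ≤ j →
      Pool.Agent.Y683.AA.Imp (2 * j - 1) f Ψ → Pool.Agent.W192.HK.HC 0 c χ →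
      Pool.Agent.Y683.AA.LF j (tw σ j Ψ χ) (L0 j (tw σ j Ψ χ)) ∧
      Pool.Agent.Y683.AA.LF j (tw τ j Ψ χ) (L0 j (tw τ j Ψ χ)) := by
    intro j f c Ψ χ hj hΨ hχ
    obtain ⟨q, -, h1, -⟩ := htw σ j Ψ f hΨ c χ hχ
    obtain ⟨q', -, h2, -⟩ := htw τ j Ψ f hΨ c χ hχ
    exact ⟨hL0 j q _ hj h1, hL0 j q' _ hj h2⟩
  have hord : ∀ (j : ℕ) (f c : Ideal R) (Ψ χ : Ideal R → ℂ), 1 ≤ j →
      Pool.Agent.Y683.AA.Imp (2 * j - 1) f Ψ → Pool.Agent.W192.HK.HC 0 c χ →
      Differentiable ℂ (L j Ψ χ) ∧ analyticOrderAt (L j Ψ χ) (j : ℂ) ≠ ⊤ ∧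
        analyticOrderNatAt (L j Ψ χ) (j : ℂ) = o j (tw σ j Ψ χ) + o j (tw τ j Ψ χ) := by
    intro j f c Ψ χ hj hΨ hχ
    obtain ⟨h1, h2⟩ := hLF j f c Ψ χ hj hΨ hχ
    have h3 := Pool.Agent.Y683.AA.orderNat_pair h1.diff h2.diff (hcj j) h1.ord h2.ord
    exact ⟨h1.diff.mul (Pool.Agent.Y683.AA.diff_cj h2.diff), h3.1, h3.2⟩
  -- the factor of the pair `p`
  have hshift : ∀ (m t : ℕ), t < m → ((m : ℂ) - (t : ℂ)) = ((m - t : ℕ) : ℂ) := fun m t h => by
    rw [Nat.cast_sub h.le]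
  have hordA : ∀ (g m : ℕ) (f : Fin g → Ideal R) (ψ : Fin g → Ideal R → ℂ), 1 ≤ m →
      (∀ i, IsHecke 1 (f i) (ψ i)) → ∀ (c : Ideal R) (χ : Ideal R → ℂ),
      Pool.Agent.W192.HK.HC 0 c χ → AnalyticAt ℂ (LA L m ψ χ) (m : ℂ) ∧
        analyticOrderAt (LA L m ψ χ) (m : ℂ) ≠ ⊤ ∧
        analyticOrderNatAt (LA L m ψ χ) (m : ℂ) = ∑ p ∈ Pairs g (2 * m - 1),
          (o (m - p.2.card) (tw σ (m - p.2.card) (Psi ψ p) χ) +
            o (m - p.2.card) (tw τ (m - p.2.card) (Psi ψ p) χ)) := by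
    intro g m f ψ hm hψ c χ hχ
    have hψ' : ∀ i, Pool.Agent.W192.HK.HC 1 (f i) (ψ i) := fun i => (isHecke_iff _ _ _).1 (hψ i)
    have h0 : ∀ p ∈ Pairs g (2 * m - 1), AnalyticAt ℂ
          (fun s => L (m - p.2.card) (Psi ψ p) χ (s - (p.2.card : ℂ))) (m : ℂ) ∧
        analyticOrderAt (fun s => L (m - p.2.card) (Psi ψ p) χ (s - (p.2.card : ℂ))) (m : ℂ) ≠ ⊤ ∧
        analyticOrderNatAt (fun s => L (m - p.2.card) (Psi ψ p) χ (s - (p.2.card : ℂ))) (m : ℂ) =
          o (m - p.2.card) (tw σ (m - p.2.card) (Psi ψ p) χ) +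
            o (m - p.2.card) (tw τ (m - p.2.card) (Psi ψ p) χ) := by
      intro p hp
      obtain ⟨h1, h2, -⟩ := pairs_iff hm hp
      obtain ⟨h3, h4, h5⟩ := hord (m - p.2.card) _ c _ χ h2 (imp_psi hQ hm hψ' hp) hχ
      obtain ⟨h6, h7⟩ := order_shift (F := L (m - p.2.card) (Psi ψ p) χ) (t := (p.2.card : ℂ))
        (z := (m : ℂ)) (h3.analyticAt _)
      rw [hshift m _ h1] at h7
      refine ⟨h6, by rw [h7]; exact h4, ?_⟩
      rw [← h5]
      unfold analyticOrderNatAt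
      rw [h7]
    have h3 := Pool.Agent.Y683.AA.order_prod (Pairs g (2 * m - 1))
      (fun p s => L (m - p.2.card) (Psi ψ p) χ (s - (p.2.card : ℂ))) (a := (m : ℂ))
      fun p hp => (h0 p hp).1
    have h4 := Pool.Agent.Y683.AA.orderNat_prod (Pairs g (2 * m - 1))
      (fun p s => L (m - p.2.card) (Psi ψ p) χ (s - (p.2.card : ℂ))) (a := (m : ℂ))
      (fun p hp => (h0 p hp).1) fun p hp => (h0 p hp).2.1
    refine ⟨h3.1, h4.1, h4.2.trans ?_⟩
    exact Finset.sum_congr rfl fun p hp => (h0 p hp).2.2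
  have hchar : ∀ X : ℕ, Characters R X = Pool.Agent.Y683.AA.Hk R 0 X := by
    intro X
    ext θ
    constructor
    · rintro ⟨q, h1, h2⟩
      refine ⟨q, (isHecke_iff _ _ _).1 h1, ?_⟩
      have : ((Nat.card (R ⧸ q) : ℕ) : ℝ) ≤ X := h2
      exact_mod_cast this
    · rintro ⟨q, h1, h2⟩
      refine ⟨q, (isHecke_iff _ _ _).2 h1, ?_⟩
      change ((Nat.card (R ⧸ q) : ℕ) : ℝ) ≤ X
      exact_mod_cast h2
  have hmod : ∀ q : Ideal R, Modulo q = Pool.Agent.Y683.AA.Dv 0 q := by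
    intro q
    ext θ
    constructor
    · rintro ⟨f, h1, h2⟩
      exact ⟨f, (isHecke_iff _ _ _).1 h1, h2⟩
    · rintro ⟨f, h1, h2⟩
      exact ⟨f, (isHecke_iff _ _ _).2 h1, h2⟩
  have hfinC : ∀ X : ℕ, (Characters R X).Finite := fun X => by
    rw [hchar]
    exact Pool.Agent.Y683.AA.hk_finite hbasic hcls hfp hQ hC 0 X
  have hfinM : ∀ q : Ideal R, q ≠ ⊥ → (Modulo q).Finite := fun q hq => by
    rw [hmod]
    exact (Pool.Agent.Y683.AA.hk_finite hbasic hcls hfp hQ hC 0 _).subset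
      (Pool.Agent.Y683.AA.dv_subset hbasic hQ 0 hq le_rfl)
  -- the total order as a double sum
  have htot : ∀ (g m : ℕ) (f : Fin g → Ideal R) (ψ : Fin g → Ideal R → ℂ), 1 ≤ m →
      (∀ i, IsHecke 1 (f i) (ψ i)) → ∀ S : Set (Ideal R → ℂ), S.Finite →
      (∀ χ ∈ S, ∃ c : Ideal R, IsHecke 0 c χ) →
      totalOrder L m ψ S = ∑ p ∈ Pairs g (2 * m - 1),
        ((∑ᶠ χ ∈ S, o (m - p.2.card) (tw σ (m - p.2.card) (Psi ψ p) χ)) +
          ∑ᶠ χ ∈ S, o (m - p.2.card) (tw τ (m - p.2.card) (Psi ψ p) χ)) := by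
    intro g m f ψ hm hψ S hS hSc
    unfold totalOrder
    simp only [finsum_mem_eq_finite_toFinset_sum _ hS]
    simp only [← Finset.sum_add_distrib]
    rw [Finset.sum_comm]
    refine Finset.sum_congr rfl fun χ hχ => ?_
    obtain ⟨c, hc⟩ := hSc χ (hS.mem_toFinset.1 hχ)
    exact (hordA g m f ψ hm hψ c χ ((isHecke_iff _ _ _).1 hc)).2.2
  have hnn : ∀ I : Ideal R, norm I = (Pool.Agent.Y683.AA.nn I : ℝ) := fun I => rfl
  have hdecay : ∀ (c : ℝ) (X : ℕ), Real.exp (-c * Pool.Agent.Y683.AA.cr X) = decay c X :=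
    fun c X => rfl
  have hdpos : ∀ (a : ℝ) (X : ℕ), 0 < decay a X := fun a X => Real.exp_pos _
  have hcard : ∀ g m : ℕ, ((Pairs g (2 * m - 1)).card : ℝ) ≤ betti g m := fun g m => by
    exact_mod_cast pairs_card g (2 * m - 1)
  have hcnd : ∀ (g : ℕ) (f : Fin g → Ideal R) (ψ : Fin g → Ideal R → ℂ),
      (∀ i, IsHecke 1 (f i) (ψ i)) → ∀ p : Finset (Fin g) × Finset (Fin g),
      (Pool.Agent.Y683.AA.nn (cnd f p) : ℝ) ≤ ∏ i, norm (f i) := fun g f ψ hψ p =>
    nn_cnd hbasic hQ (fun i => (hψ i).ne_bot) p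
  refine ⟨L, fun g m f ψ hm hψ p hp c χ hχ => ?_, hfinC, hfinM, ?_, fun m hm => ?_,
    fun m hm ε hε => ?_⟩
  · have hψ' : ∀ i, Pool.Agent.W192.HK.HC 1 (f i) (ψ i) := fun i => (isHecke_iff _ _ _).1 (hψ i)
    have hχ' := (isHecke_iff _ _ _).1 hχ
    obtain ⟨-, hj, -⟩ := pairs_iff hm hp
    have hΨ := imp_psi hQ hm hψ' hp
    obtain ⟨h1, h2, -⟩ := hord (m - p.2.card) _ c _ χ hj hΨ hχ'
    obtain ⟨hF, hG⟩ := hLF (m - p.2.card) _ c _ χ hj hΨ hχ'
    obtain ⟨q, -, h3, h4⟩ := htw σ (m - p.2.card) _ _ hΨ c χ hχ'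
    obtain ⟨q', -, h5, h6⟩ := htw τ (m - p.2.card) _ _ hΨ c χ hχ'
    refine ⟨h1, h2, tw σ (m - p.2.card) (Psi ψ p) χ, tw τ (m - p.2.card) (Psi ψ p) χ,
      ⟨⟨q, (isHecke_iff _ _ _).2 h3⟩, h4⟩, ⟨⟨q', (isHecke_iff _ _ _).2 h5⟩, fun I hI => ?_⟩,
      fun s hs => ?_⟩
    · refine h6 I fun h => hI ?_
      rcases mul_eq_zero.1 h with h | h
      · rw [h, zero_mul]
      · change Psi ψ p I * (starRingEnd ℂ) (χ I) = 0
        rw [h, map_zero, mul_zero]
    · refine ⟨_, _, hF.sum s hs, ?_, rfl⟩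
      have h7 := hG.sum ((starRingEnd ℂ) s) (by
        rw [Complex.conj_re]
        exact hs)
      have h8 := h7.map (starRingEnd ℂ) Complex.continuous_conj
      have h9 : (fun I : Ideal R => (starRingEnd ℂ) (tw τ (m - p.2.card) (Psi ψ p) χ I) *
            (norm I : ℂ) ^ (-s)) =
          (starRingEnd ℂ) ∘ fun I : Ideal R => tw τ (m - p.2.card) (Psi ψ p) χ I *
            (Pool.Agent.W192.HK.nm I : ℂ) ^ (-(starRingEnd ℂ) s) := by
        funext I
        change _ = (starRingEnd ℂ) (tw τ (m - p.2.card) (Psi ψ p) χ I *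
          (norm I : ℂ) ^ (-(starRingEnd ℂ) s))
        rw [map_mul, cpow_cj]
      rw [h9]
      exact h8
  · obtain ⟨c, X0, hc, hX0, h1⟩ := Pool.Agent.Y683.AA.hk_lower hbasic hcls hfp hQ hC
    refine ⟨c / 9, max X0 3, by positivity, fun X hX => ?_⟩
    have h2 := h1 0 X ((le_max_left _ _).trans hX)
    rw [hchar]
    have h3 : (3 : ℝ) ≤ X := (le_max_right _ _).trans hX
    have hlog : 1 ≤ Real.log X := by
      rw [Real.le_log_iff_exp_le (by linarith)]
      have := Real.exp_one_lt_d9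
      linarith
    rw [div_pow, ← mul_div_assoc, div_le_iff₀ (by positivity)]
    have h4 : (1 + 2 * Real.log X) ^ 2 ≤ 9 * (Real.log X) ^ 2 := by nlinarith
    have h5 := mul_le_mul_of_nonneg_left h4
      (Nat.cast_nonneg (α := ℝ) (Pool.Agent.Y683.AA.Hk R 0 X).ncard)
    linarith
  · obtain ⟨C1, c1, hC1, hc1, h1⟩ := Pool.Agent.X284.HB.avg_unif hbasic hcls hfp hdivr hQ hC ho m
    refine ⟨2 * C1, c1, by positivity, hc1, fun g f ψ hψ X hX => ?_⟩
    have hψ' : ∀ i, Pool.Agent.W192.HK.HC 1 (f i) (ψ i) := fun i => (isHecke_iff _ _ _).1 (hψ i)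
    have hN0 : (0 : ℝ) ≤ ∏ i, norm (f i) := Finset.prod_nonneg fun i _ => Nat.cast_nonneg _
    have h3 : (totalOrder L m ψ (Characters R X) : ℝ) ≤
        2 * C1 * betti g m * (∏ i, norm (f i)) ^ 3 * decay c1 X * (Characters R X).ncard := by
      rw [htot g m f ψ hm hψ _ (hfinC X) fun χ hχ => ⟨hχ.choose, hχ.choose_spec.1⟩, hchar,
        Nat.cast_sum]
      have h4 : ∀ p ∈ Pairs g (2 * m - 1),
          (((∑ᶠ χ ∈ Pool.Agent.Y683.AA.Hk R 0 X,
              o (m - p.2.card) (tw σ (m - p.2.card) (Psi ψ p) χ)) +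
            ∑ᶠ χ ∈ Pool.Agent.Y683.AA.Hk R 0 X,
              o (m - p.2.card) (tw τ (m - p.2.card) (Psi ψ p) χ) : ℕ) : ℝ) ≤
          2 * C1 * (∏ i, norm (f i)) ^ 3 * decay c1 X *
            (Pool.Agent.Y683.AA.Hk R 0 X).ncard := by
        intro p hp
        obtain ⟨-, hj, -⟩ := pairs_iff hm hp
        have hΨ := imp_psi hQ hm hψ' hp
        have h4 := h1 (m - p.2.card) hj (Nat.sub_le _ _) σ _ (Psi ψ p) (tw σ _ (Psi ψ p)) hΨ
          (htw σ _ (Psi ψ p) _ hΨ) X hX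
        have h5 := h1 (m - p.2.card) hj (Nat.sub_le _ _) τ _ (Psi ψ p) (tw τ _ (Psi ψ p)) hΨ
          (htw τ _ (Psi ψ p) _ hΨ) X hX
        have h6 : C1 * (Pool.Agent.Y683.AA.nn (cnd f p) : ℝ) ^ 3 *
              Real.exp (-c1 * Pool.Agent.Y683.AA.cr X) *
              (Set.ncard (Pool.Agent.Y683.AA.Hk R 0 X) : ℝ) ≤
            C1 * (∏ i, norm (f i)) ^ 3 * decay c1 X *
              (Set.ncard (Pool.Agent.Y683.AA.Hk R 0 X) : ℝ) := by
          rw [hdecay]
          have h7 := pow_le_pow_left₀ (Nat.cast_nonneg _) (hcnd g f ψ hψ p) 3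
          exact mul_le_mul_of_nonneg_right (mul_le_mul_of_nonneg_right
            (mul_le_mul_of_nonneg_left h7 hC1.le) (hdpos c1 X).le) (Nat.cast_nonneg _)
        rw [Nat.cast_add]
        linarith
      refine (Finset.sum_le_sum h4).trans ?_
      rw [Finset.sum_const, nsmul_eq_mul]
      have h5 : (0 : ℝ) ≤ 2 * C1 * (∏ i, norm (f i)) ^ 3 * decay c1 X *
            (Pool.Agent.Y683.AA.Hk R 0 X).ncard :=
        mul_nonneg (mul_nonneg (mul_nonneg (mul_nonneg zero_le_two hC1.le) (pow_nonneg hN0 3))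
          (hdpos c1 X).le) (Nat.cast_nonneg _)
      calc ((Pairs g (2 * m - 1)).card : ℝ) * (2 * C1 * (∏ i, norm (f i)) ^ 3 * decay c1 X *
            (Pool.Agent.Y683.AA.Hk R 0 X).ncard) ≤ betti g m * (2 * C1 *
            (∏ i, norm (f i)) ^ 3 * decay c1 X * (Pool.Agent.Y683.AA.Hk R 0 X).ncard) :=
            mul_le_mul_of_nonneg_right (hcard g m) h5
        _ = _ := by ring
    refine ⟨h3, le_trans ?_ h3⟩
    unfold totalOrder
    refine (Nat.cast_le (α := ℝ)).2 (Pool.Agent.Y683.AA.ncard_le_fs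
      (hfinC X) _ _ fun χ hχ h0 hz => ?_)
    obtain ⟨c, h4, -⟩ := hχ
    obtain ⟨h5, h6, -⟩ := hordA g m f ψ hm hψ c χ ((isHecke_iff _ _ _).1 h4)
    have h7 : analyticOrderAt (LA L m ψ χ) (m : ℂ) = 0 := by
      rw [← Nat.cast_analyticOrderNatAt h6, hz]
      rfl
    exact (h5.analyticOrderAt_eq_zero.1 h7) h0
  · have hε0 : 0 < min ε (1 / 3) := lt_min hε (by norm_num)
    obtain ⟨C1, c1, hC1, hc1, h1⟩ := Pool.Agent.X284.HB.pw_unif hbasic hcls hfp hdivr hQ hC ho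
      hε0 (min_le_right _ _) m
    set η : ℝ := min ε (1 / 3) with hη
    refine ⟨2 * C1, c1, by positivity, hc1, fun g f ψ hψ X hX => ?_⟩
    have hψ' : ∀ i, Pool.Agent.W192.HK.HC 1 (f i) (ψ i) := fun i => (isHecke_iff _ _ _).1 (hψ i)
    have hN0 : (0 : ℝ) ≤ ∏ i, norm (f i) := Finset.prod_nonneg fun i _ => Nat.cast_nonneg _
    set B : (ℂ →+* ℂ) → Finset (Fin g) × Finset (Fin g) → Set (Ideal R) := fun ρ p =>
      Pool.Agent.Y683.AA.Bdt X (C1 * (Pool.Agent.Y683.AA.nn (cnd f p) : ℝ)) η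
        (fun χ => o (m - p.2.card) (tw ρ (m - p.2.card) (Psi ψ p) χ)) with hB
    have hBB : ∀ (ρ : ℂ →+* ℂ), ∀ p ∈ Pairs g (2 * m - 1), (B ρ p).Finite ∧
        ((B ρ p).ncard : ℝ) ≤ C1 * (∏ i, norm (f i)) * X * decay c1 X := by
      intro ρ p hp
      obtain ⟨-, hj, -⟩ := pairs_iff hm hp
      have hΨ := imp_psi hQ hm hψ' hp
      obtain ⟨h2, h3⟩ := h1 (m - p.2.card) hj (Nat.sub_le _ _) ρ _ (Psi ψ p) (tw ρ _ (Psi ψ p)) hΨ
        (htw ρ _ (Psi ψ p) _ hΨ) X hX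
      refine ⟨h2, h3.trans ?_⟩
      rw [hdecay]
      have h4 := hcnd g f ψ hψ p
      have h5 := (hdpos c1 X).le
      exact mul_le_mul_of_nonneg_right (mul_le_mul_of_nonneg_right
        (mul_le_mul_of_nonneg_left h4 hC1.le) (Nat.cast_nonneg X)) h5
    have hsub : Exceptional L m f ψ (2 * C1) ε X ⊆ ⋃ p ∈ Pairs g (2 * m - 1),
        (B σ p ∪ B τ p) := by
      rintro q ⟨hq, hqX, hlt⟩
      by_contra hcon
      have hno : ∀ p ∈ Pairs g (2 * m - 1), q ∉ B σ p ∧ q ∉ B τ p := by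
        intro p hp
        constructor
        · intro h
          exact hcon (Set.mem_iUnion₂.2 ⟨p, hp, Or.inl h⟩)
        · intro h
          exact hcon (Set.mem_iUnion₂.2 ⟨p, hp, Or.inr h⟩)
      have hq1 : (1 : ℝ) ≤ norm q := by
        rw [hnn]
        exact_mod_cast Pool.Agent.Y683.AA.nn_pos hbasic hQ hq
      have hqX' : Pool.Agent.Y683.AA.nn q ≤ X := by
        have : ((Nat.card (R ⧸ q) : ℕ) : ℝ) ≤ X := hqX
        exact_mod_cast this
      have hbd : ∀ (ρ : ℂ →+* ℂ), ∀ p ∈ Pairs g (2 * m - 1), q ∉ B ρ p →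
          ((∑ᶠ χ ∈ Modulo q, o (m - p.2.card) (tw ρ (m - p.2.card) (Psi ψ p) χ) : ℕ) : ℝ) ≤
            C1 * (∏ i, norm (f i)) * norm q ^ (2 / 3 + ε) := by
        intro ρ p hp hn
        have h2 : ((∑ᶠ χ ∈ Modulo q, o (m - p.2.card) (tw ρ (m - p.2.card) (Psi ψ p) χ) : ℕ) : ℝ) ≤
            C1 * (Pool.Agent.Y683.AA.nn (cnd f p) : ℝ) * norm q ^ (2 / 3 + η) := by
          rw [hmod]
          by_contra h3
          exact hn ⟨hq, hqX', not_le.1 h3⟩
        refine h2.trans ?_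
        have h4 : norm q ^ (2 / 3 + η) ≤ norm q ^ (2 / 3 + ε) :=
          Real.rpow_le_rpow_of_exponent_le hq1 (by
            have : η ≤ ε := min_le_left _ _
            linarith)
        have h5 := hcnd g f ψ hψ p
        have h6 : 0 ≤ norm q ^ (2 / 3 + η) := Real.rpow_nonneg (zero_le_one.trans hq1) _
        exact mul_le_mul (mul_le_mul_of_nonneg_left h5 hC1.le) h4 h6 (mul_nonneg hC1.le hN0)
      refine absurd hlt (not_lt.2 ?_)
      rw [htot g m f ψ hm hψ _ (hfinM q hq) fun χ hχ => ⟨hχ.choose, hχ.choose_spec.1⟩,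
        Nat.cast_sum]
      have h6 : ∀ p ∈ Pairs g (2 * m - 1),
          (((∑ᶠ χ ∈ Modulo q, o (m - p.2.card) (tw σ (m - p.2.card) (Psi ψ p) χ)) +
            ∑ᶠ χ ∈ Modulo q, o (m - p.2.card) (tw τ (m - p.2.card) (Psi ψ p) χ) : ℕ) : ℝ) ≤
          2 * C1 * (∏ i, norm (f i)) * norm q ^ (2 / 3 + ε) := by
        intro p hp
        have h4 := hbd σ p hp (hno p hp).1
        have h5 := hbd τ p hp (hno p hp).2
        rw [Nat.cast_add]
        linarith
      refine (Finset.sum_le_sum h6).trans ?_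
      rw [Finset.sum_const, nsmul_eq_mul]
      have h7 : (0 : ℝ) ≤ 2 * C1 * (∏ i, norm (f i)) * norm q ^ (2 / 3 + ε) := by
        have h6 : 0 ≤ norm q ^ (2 / 3 + ε) := Real.rpow_nonneg (zero_le_one.trans hq1) _
        exact mul_nonneg (mul_nonneg (mul_nonneg zero_le_two hC1.le) hN0) h6
      calc ((Pairs g (2 * m - 1)).card : ℝ) *
            (2 * C1 * (∏ i, norm (f i)) * norm q ^ (2 / 3 + ε)) ≤
            betti g m * (2 * C1 * (∏ i, norm (f i)) * norm q ^ (2 / 3 + ε)) :=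
            mul_le_mul_of_nonneg_right (hcard g m) h7
        _ = _ := by ring
    have hfinU : (⋃ p ∈ Pairs g (2 * m - 1), (B σ p ∪ B τ p)).Finite :=
      Set.Finite.biUnion (Finset.finite_toSet _) fun p hp =>
        (hBB σ p hp).1.union (hBB τ p hp).1
    refine ⟨hfinU.subset hsub, ?_⟩
    have h6 : ((Exceptional L m f ψ (2 * C1) ε X).ncard : ℝ) ≤
        ((⋃ p ∈ Pairs g (2 * m - 1), (B σ p ∪ B τ p)).ncard : ℝ) := by
      exact_mod_cast Set.ncard_le_ncard hsub hfinU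
    have h7 : ((⋃ p ∈ Pairs g (2 * m - 1), (B σ p ∪ B τ p)).ncard : ℝ) ≤
        ∑ p ∈ Pairs g (2 * m - 1), (((B σ p).ncard : ℝ) + (B τ p).ncard) := by
      have h8 : (⋃ p ∈ Pairs g (2 * m - 1), (B σ p ∪ B τ p)).ncard ≤
          ∑ p ∈ Pairs g (2 * m - 1), ((B σ p).ncard + (B τ p).ncard) :=
        (Finset.set_ncard_biUnion_le _ _).trans
          (Finset.sum_le_sum fun i _ => Set.ncard_union_le _ _)
      exact_mod_cast h8
    refine h6.trans (h7.trans ?_)
    have h8 : ∀ p ∈ Pairs g (2 * m - 1), (((B σ p).ncard : ℝ) + (B τ p).ncard) ≤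
        2 * C1 * (∏ i, norm (f i)) * X * decay c1 X := by
      intro p hp
      have h8 := (hBB σ p hp).2
      have h9 := (hBB τ p hp).2
      linarith
    refine (Finset.sum_le_sum h8).trans ?_
    rw [Finset.sum_const, nsmul_eq_mul]
    have h9 : (0 : ℝ) ≤ 2 * C1 * (∏ i, norm (f i)) * X * decay c1 X :=
      mul_nonneg (mul_nonneg (mul_nonneg (mul_nonneg zero_le_two hC1.le) hN0)
        (Nat.cast_nonneg X)) (hdpos c1 X).le
    calc ((Pairs g (2 * m - 1)).card : ℝ) * (2 * C1 * (∏ i, norm (f i)) * X * decay c1 X) ≤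
          betti g m * (2 * C1 * (∏ i, norm (f i)) * X * decay c1 X) :=
          mul_le_mul_of_nonneg_right (hcard g m) h9
      _ = _ := by ring

end Pool.Agent.Results.MP_29b22a_nt.CMAbelianAllDegrees
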