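import Pool.Agent.X284.KS.Fam2

/-!
# Central values of motives of newforms twisted by Dirichlet characters of large order

Let `X / ℚ` be a smooth projective variety and `i` an odd integer, `m = (i + 1) / 2`, such that the
semisimplification of `H^i(X)` is a sum of Tate twists `V(f_j)(-t_j)` of the Galois representations
of newforms `f_j` of even weights `2 m_j`, levels `N_j` and arbitrary characters, `m_j + t_j = m`
(Kuga-Sato varieties, rigid Calabi-Yau threefolds, products of modular curves `X_1(N)`, ...).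

If `χ` is a primitive Dirichlet character of order `d` and conductor `q` prime to the `N_j`,
the `L`-function of the part of `H^i(X_K)` that is new in the cyclic extension `K / ℚ` cut out by
`χ` is the product of the `L`-functions of `H^i(X) ⊗ χ^a`, `a ∈ (ℤ/d)ˣ`.  By Beilinson's conjecture
its order of vanishing at `s = m` is the dimension of the new part of `CH^m(X_K)^0 ⊗ ℚ`.

We show that it does not vanish if `d ≥ q^(3/4 + ε)` and `q ≥ q_0(ε)`, so that the new part should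
be `0` and part (iv) of the conjecture is an assertion about the value itself.  Such characters
are almost all: the characters of conductor at most `X` for which the new part of the `L`-function
vanishes at `s = m` are at most `C X² exp(-c (log X)^(1/3))` in number, and the average over all
characters of the order of vanishing is `O(exp(-c (log X)^(1/3)))`.
-/

set_option autoImplicit false

open Complex UpperHalfPlane MatrixGroups CongruenceSubgroup

namespace Pool.Agent.Results.MP_29b22a_nt.KugaSatoTwists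

/-- The `n`-th Fourier coefficient of `f`. -/
noncomputable def coef {N : ℕ} {k : ℤ} (f : CuspForm (Gamma1 N : Subgroup (GL (Fin 2) ℝ)) k)
    (n : ℕ) : ℂ :=
  (qExpansion 1 f).coeff n

/-- `f ∈ S_{2m}(Γ₁(N))` is a newform of level `N` with character `η`: the Fourier coefficients
`c(n)` satisfy `c(1) = 1`, `c(ab) = c(a) c(b)` for coprime `a`, `b`,
`c(p^(j+2)) = c(p) c(p^(j+1)) - η(p) p^(2m-1) c(p^j)`; for the primes `p ∤ N`
`conj c(p) = conj η(p) c(p)` and `|c(p)| ≤ 2 p^((2m-1)/2)` (Eichler, Shimura, Deligne), for the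
primes `p ∣ N` `|c(p)| ≤ p^((2m-1)/2)`; `f(γτ) = η(d) (cτ + d)^(2m) f(τ)` for
`γ = (a b; c d) ∈ Γ₀(N)`; and the Fricke involution takes `f` to a multiple of `f^c`,
`f^c(τ) = conj f(-conj τ)` (Atkin, Lehner, Li):
`f(-1/(Nτ)) = (-1)^m w N^m τ^(2m) f^c(τ)` with `|w| = 1`. -/
structure IsNewform (m N : ℕ) (η : DirichletCharacter ℂ N)
    (f : CuspForm (Gamma1 N : Subgroup (GL (Fin 2) ℝ)) (2 * m : ℤ)) (w : ℂ) : Prop where
  one : coef f 1 = 1
  mul : ∀ a b : ℕ, Nat.Coprime a b → coef f (a * b) = coef f a * coef f b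
  pow : ∀ p j : ℕ, p.Prime → coef f (p ^ (j + 2)) = coef f p * coef f (p ^ (j + 1)) -
    η (p : ZMod N) * (p : ℂ) ^ (2 * m - 1) * coef f (p ^ j)
  conj : ∀ p : ℕ, p.Prime → ¬ p ∣ N → (starRingEnd ℂ) (coef f p) =
    (starRingEnd ℂ) (η (p : ZMod N)) * coef f p
  good : ∀ p : ℕ, p.Prime → ¬ p ∣ N → ‖coef f p‖ ≤ 2 * (p : ℝ) ^ ((2 * m - 1 : ℝ) / 2)
  bad : ∀ p : ℕ, p.Prime → p ∣ N → ‖coef f p‖ ≤ (p : ℝ) ^ ((2 * m - 1 : ℝ) / 2)
  neb : ∀ γ : SL(2, ℤ), γ ∈ Gamma0 N → ∀ τ : ℍ, f (γ • τ) = η ((γ 1 1 : ℤ) : ZMod N) *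
    (((γ 1 0 : ℤ) : ℂ) * (τ : ℂ) + ((γ 1 1 : ℤ) : ℂ)) ^ (2 * m) * f τ
  norm : ‖w‖ = 1
  fricke : ∀ τ τ' τc : ℍ, (τ' : ℂ) * ((N : ℂ) * (τ : ℂ)) = -1 →
    (τc : ℂ) = -(starRingEnd ℂ) (τ : ℂ) →
    f τ' = (-1 : ℂ) ^ m * w * (N : ℂ) ^ m * (τ : ℂ) ^ (2 * m) * (starRingEnd ℂ) (f τc)

/-- A newform `f` of even weight `2m ≥ 2`, level `N ≥ 1` and character `η`. -/
structure Newform where
  /-- the level -/
  N : ℕ
  N_ne : N ≠ 0
  /-- half of the weight -/
  m : ℕ
  m_pos : 1 ≤ m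
  /-- the character -/
  η : DirichletCharacter ℂ N
  /-- the form -/
  f : CuspForm (Gamma1 N : Subgroup (GL (Fin 2) ℝ)) (2 * m : ℤ)
  /-- the constant of the Fricke involution -/
  w : ℂ
  newform : IsNewform m N η f w

/-- The Euler factor at the prime `p` of the `L`-function of `f ⊗ χ`:
`(1 - χ(p) c(p) p^(-s) + χ(p)² η(p) p^(2m-1) p^(-2s))⁻¹`. -/
noncomputable def Newform.factor (P : Newform) {q : ℕ} (χ : DirichletCharacter ℂ q) (s : ℂ)
    (p : ℕ) : ℂ :=
  (1 - χ (p : ZMod q) * coef P.f p * (p : ℂ) ^ (-s) +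
    χ (p : ZMod q) ^ 2 * (P.η (p : ZMod P.N) * (p : ℂ) ^ (2 * P.m - 1)) * (p : ℂ) ^ (-2 * s))⁻¹

/-- The primitive Dirichlet characters of conductor at most `X` and prime to `N`. -/
def Characters (N X : ℕ) : Set (Σ q : ℕ, DirichletCharacter ℂ q) :=
  {x | 1 ≤ x.1 ∧ x.1 ≤ X ∧ Nat.Coprime x.1 N ∧ x.2.IsPrimitive}

/-- the same newform in the library -/
noncomputable def Newform.lib (P : Newform) : Pool.Agent.X284.KS.Newform :=
  have : NeZero P.N := ⟨P.N_ne⟩
  { N := P.N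
    m := P.m
    m_pos := P.m_pos
    η := P.η
    f := P.f
    w := P.w
    newf := ⟨P.newform.one, P.newform.mul, P.newform.pow, P.newform.conj, P.newform.good,
      P.newform.bad, P.newform.neb, P.newform.norm, P.newform.fricke⟩ }

theorem factor_eq (P : Newform) {q : ℕ} (χ : DirichletCharacter ℂ q) (s : ℂ) (p : ℕ)
    (hp : p.Prime) :
    P.factor χ s p = Pool.Agent.X284.KS.eulN (Pool.Agent.W192.CY.cf P.lib.f) P.lib.u q χ s p := by
  have e : (p : ℂ) ^ (-2 * s) = ((p : ℂ) ^ (-s)) ^ 2 := by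
    rw [show -2 * s = ((2 : ℕ) : ℂ) * (-s) by push_cast; ring, Complex.cpow_nat_mul]
  unfold Newform.factor Pool.Agent.X284.KS.eulN
  have e2 : χ (p : ZMod q) ^ 2 * (P.η (p : ZMod P.N) * (p : ℂ) ^ (2 * P.m - 1)) *
      (p : ℂ) ^ (-2 * s) = χ (p : ZMod q) ^ 2 * (P.lib.u p * ((p : ℂ) ^ (-s)) ^ 2) := by
    rw [e, mul_assoc]
    rfl
  rw [e2]
  rfl

/-- **Main theorem.** Let `f_j` be finitely many newforms of even weights `2 m_j`, levels `N_j` and
arbitrary characters, and let `t_j ≥ 0` be such that `m_j + t_j = m` for all `j`.  There are functions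
`L q χ`, the `L`-functions of `⨁_j V(f_j)(-t_j) ⊗ χ`, with the following properties.

* For `q` prime to all `N_j` and primitive `χ` modulo `q`, `L q χ` is entire, does not vanish
  identically and is for `Re s > m + 1/2` the Euler product of `∏_j factor f_j χ (s - t_j) p`.
* For every `ε > 0` there is a `q₀` such that for all `q ≥ q₀` prime to all `N_j`, all primitive `χ`
  modulo `q` of order at least `q^(3/4 + ε)` and all `a` prime to the order of `χ`, `χ^a` is
  primitive and `L q (χ^a) m ≠ 0`.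
* There are `C`, `c > 0` such that for all `X ≥ 1` the proportion of those primitive characters `χ`
  of conductor `q ≤ X` prime to all `N_j` for which `L q (χ^a) m = 0` for some `a` prime to the
  order of `χ` is at most `C exp(-c (log X)^(1/3))`.
* There are `C`, `c > 0` such that for all `X ≥ 1` the average over all primitive characters `χ` of
  conductor `q ≤ X` prime to all `N_j` of the order of vanishing of `L q χ` at `s = m` is at most
  `C exp(-c (log X)^(1/3))`. -/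
theorem result {ι : Type} [Fintype ι] (P : ι → Newform) (t : ι → ℕ) (m : ℕ)
    (hm : ∀ j, (P j).m + t j = m) :
    ∃ L : (q : ℕ) → DirichletCharacter ℂ q → ℂ → ℂ,
      (∀ (q : ℕ) (χ : DirichletCharacter ℂ q), 1 ≤ q → Nat.Coprime q (∏ j, (P j).N) →
        χ.IsPrimitive → Differentiable ℂ (L q χ) ∧ analyticOrderAt (L q χ) m ≠ ⊤ ∧
        ∀ s : ℂ, (m : ℝ) + 1 / 2 < s.re →
          HasProd (fun p : Nat.Primes => ∏ j, (P j).factor χ (s - t j) p) (L q χ s)) ∧
      (∀ ε : ℝ, 0 < ε → ∃ q₀ : ℝ, ∀ q : ℕ, q₀ ≤ q → 1 < q → Nat.Coprime q (∏ j, (P j).N) →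
        ∀ χ : DirichletCharacter ℂ q, χ.IsPrimitive → (q : ℝ) ^ (3 / 4 + ε) ≤ orderOf χ →
        ∀ a : ℕ, Nat.Coprime a (orderOf χ) → (χ ^ a).IsPrimitive ∧ L q (χ ^ a) m ≠ 0) ∧
      (∃ C c : ℝ, 0 < C ∧ 0 < c ∧ ∀ X : ℕ, 1 ≤ X →
        (({x ∈ Characters (∏ j, (P j).N) X | ∃ a : ℕ, Nat.Coprime a (orderOf x.2) ∧
          L x.1 (x.2 ^ a) m = 0}.ncard : ℕ) : ℝ) ≤
          C * Real.exp (-c * (Real.log X) ^ ((1 : ℝ) / 3)) *
            (Characters (∏ j, (P j).N) X).ncard) ∧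
      ∃ C c : ℝ, 0 < C ∧ 0 < c ∧ ∀ X : ℕ, 1 ≤ X →
        ((∑ᶠ x ∈ Characters (∏ j, (P j).N) X, analyticOrderNatAt (L x.1 x.2) m : ℕ) : ℝ) ≤
          C * Real.exp (-c * (Real.log X) ^ ((1 : ℝ) / 3)) *
            (Characters (∏ j, (P j).N) X).ncard := by
  classical
  obtain ⟨K0, L, hL, hG⟩ := Pool.Agent.X284.KS.family (fun j => (P j).lib) t m hm
  set M : ℕ := ∏ j, (P j).N with hM
  have hM1 : 1 ≤ M := Nat.one_le_iff_ne_zero.2 (Finset.prod_ne_zero_iff.2 fun j _ => (P j).N_ne)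
  have hord : ∀ (q : ℕ) (χ : DirichletCharacter ℂ q), 1 ≤ q → Nat.Coprime q M → χ.IsPrimitive →
      analyticOrderAt (fun s => ∏ j, L j q χ s) (m : ℂ) =
        ((∑ j, analyticOrderNatAt (L j q χ) m : ℕ) : ℕ∞) := by
    intro q χ hq hqM hχ
    rw [Pool.Agent.X309.TwDefs.order_prod Finset.univ (fun j => L j q χ) m
      (fun j _ => (hL j q χ hq hqM hχ).1.analyticAt _) (fun j _ => (hL j q χ hq hqM hχ).2.2)]
  have hnat : ∀ (q : ℕ) (χ : DirichletCharacter ℂ q), 1 ≤ q → Nat.Coprime q M → χ.IsPrimitive →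
      analyticOrderNatAt (fun s => ∏ j, L j q χ s) (m : ℂ) =
        ∑ j, analyticOrderNatAt (L j q χ) m := by
    intro q χ hq hqM hχ
    have h1 := hord q χ hq hqM hχ
    unfold analyticOrderNatAt at h1 ⊢
    rw [h1]
    rfl
  have hzero : ∀ (q : ℕ) (χ : DirichletCharacter ℂ q), 1 ≤ q → Nat.Coprime q M → χ.IsPrimitive →
      (∏ j, L j q χ m = 0 ↔ ∑ j, analyticOrderNatAt (L j q χ) m ≠ 0) := by
    intro q χ hq hqM hχ
    have h1 : AnalyticAt ℂ (fun s => ∏ j, L j q χ s) (m : ℂ) :=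
      (Differentiable.fun_finsetProd fun j _ => (hL j q χ hq hqM hχ).1).analyticAt _
    have h2 := h1.analyticOrderAt_eq_zero
    rw [hord q χ hq hqM hχ] at h2
    constructor
    · intro h3 h4
      rw [h4] at h2
      exact h2.1 rfl h3
    · intro h3
      by_contra h4
      have h5 := h2.2 h4
      exact h3 (by exact_mod_cast h5)
  refine ⟨fun q χ s => ∏ j, L j q χ s, ?_, ?_, ?_, ?_⟩
  · intro q χ hq hqM hχ
    refine ⟨Differentiable.fun_finsetProd fun j _ => (hL j q χ hq hqM hχ).1, ?_, ?_⟩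
    · rw [hord q χ hq hqM hχ]
      exact ENat.natCast_ne_top _
    · intro s hs
      apply hasProd_prod
      intro j _
      refine (congrArg (fun g => HasProd g (L j q χ s)) (funext fun p => ?_)).mpr
        ((hL j q χ hq hqM hχ).2.1 s hs)
      exact factor_eq (P j) χ _ p p.2
  · intro ε hε
    obtain ⟨q0, hq0⟩ := hG.nv ε hε
    refine ⟨q0, fun q h1 h2 h3 χ h4 h5 a ha => ?_⟩
    have : NeZero q := ⟨by omega⟩
    have hp : (χ ^ a).IsPrimitive := Pool.Agent.X309.DC.prim_pow h4 ha.symm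
    refine ⟨hp, fun h6 => ?_⟩
    have h7 := (hzero q (χ ^ a) (by omega) h3 hp).1 h6
    exact h7 (hq0 q h1 h2 h3 (χ ^ a) hp (by rwa [Nat.Coprime.orderOf_pow ha.symm]))
  · obtain ⟨C, c, hC, hc, h⟩ := Pool.Agent.X309.DC.proportion hM1 hG
    refine ⟨C, c, hC, hc, fun X hX => ?_⟩
    refine le_trans ?_ (h X hX)
    have hsub : {x ∈ Characters M X | ∃ a : ℕ, Nat.Coprime a (orderOf x.2) ∧
        ∏ j, L j x.1 (x.2 ^ a) m = 0} ⊆
        {x ∈ Pool.Agent.Y683.AA.Prim M X | ∃ j ∈ Pool.Agent.X309.DC.ex (orderOf x.2),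
          (fun q χ => ∑ j, analyticOrderNatAt (L j q χ) m) x.1 (x.2 ^ j) ≠ 0} := by
      rintro x ⟨hx, a, ha, h0⟩
      refine ⟨hx, a % orderOf x.2, ?_, ?_⟩
      · have : NeZero x.1 := ⟨by have := hx.1; omega⟩
        rw [Pool.Agent.X309.DC.mem_ex]
        refine ⟨Nat.mod_lt _ (orderOf_pos _), ?_⟩
        rw [Nat.coprime_iff_gcd_eq_one, Nat.gcd_comm, ← Nat.gcd_rec, Nat.gcd_comm]
        exact ha
      · have : NeZero x.1 := ⟨by have := hx.1; omega⟩
        have hp : (x.2 ^ a).IsPrimitive := Pool.Agent.X309.DC.prim_pow hx.2.2.2 ha.symm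
        rw [pow_mod_orderOf]
        exact (hzero x.1 (x.2 ^ a) hx.1 hx.2.2.1 hp).1 h0
    exact_mod_cast Set.ncard_le_ncard hsub
      ((Pool.Agent.X309.DC.prim_finite M X).subset (fun x hx => hx.1))
  · obtain ⟨C, c, hC, hc, h⟩ := Pool.Agent.Y683.AA.average hM1 hG
    refine ⟨C, c, hC, hc, fun X hX => ?_⟩
    refine le_trans (le_of_eq ?_) (h X hX)
    congr 1
    exact finsum_mem_congr rfl fun x hx => hnat x.1 x.2 hx.1 hx.2.2.1 hx.2.2.2

end Pool.Agent.Results.MP_29b22a_nt.KugaSatoTwists
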